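import Mathlib
import Pool.Agent.helper31.LP.Basic

set_option autoImplicit false

/-!
# The least prime not dividing `(n+1)...(n+k)` when `k` is a power of `log n`

For every `0 < α < 1` there are infinitely many `n` for which the least prime not dividing the product
`(n + 1) ... (n + k)`, `k = ⌊(log n) ^ α⌋`, is at least `(1 / (1 - α) - ε) log n`.
-/

namespace Pool.Agent.helper2.GK

open Filter Topology Asymptotics Real
open Pool.Agent.helper31.LP

/-- the primes in `(j, Y]` -/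
def S (j Y : ℕ) : Finset ℕ := (Nat.primesLE Y).filter (j < ·)

lemma mem_S {j Y p : ℕ} : p ∈ S j Y ↔ p.Prime ∧ p ≤ Y ∧ j < p := by
  unfold S
  rw [Finset.mem_filter, Nat.mem_primesLE]
  tauto

/-- The Chinese remainder theorem: there are at least `j ^ |S|` residues whose remainders modulo all
`p ∈ S` are less than `j`. -/
lemma card_res (j Y : ℕ) : j ^ (S j Y).card ≤
    ((Finset.range (∏ p ∈ S j Y, p)).filter (fun r => ∀ p ∈ S j Y, r % p < j)).card := by
  classical
  have hcop : Set.Pairwise (↑(S j Y) : Set ℕ) (Function.onFun Nat.Coprime (fun p => p)) := by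
    intro p hp p' hp' hne
    exact (Nat.coprime_primes (mem_S.mp hp).1 (mem_S.mp hp').1).mpr hne
  have hne : ∀ p ∈ S j Y, p ≠ 0 := fun p hp => (mem_S.mp hp).1.ne_zero
  have hcard : ((S j Y).pi fun _ => Finset.range j).card = j ^ (S j Y).card := by
    rw [Finset.card_pi]; simp
  rw [← hcard]
  let g : ((p : ℕ) → p ∈ S j Y → ℕ) → ℕ := fun f => (Nat.chineseRemainderOfFinset
    (fun p => if h : p ∈ S j Y then f p h else 0) (fun p => p) (S j Y) hne hcop : ℕ)
  have hg : ∀ f ∈ (S j Y).pi fun _ => Finset.range j, ∀ p (hp : p ∈ S j Y),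
      g f % p = f p hp ∧ f p hp < j := by
    intro f hf p hp
    have h1 := (Nat.chineseRemainderOfFinset
      (fun p => if h : p ∈ S j Y then f p h else 0) (fun p => p) (S j Y) hne hcop).2 p hp
    have h2 : f p hp < j := Finset.mem_range.mp (Finset.mem_pi.mp hf p hp)
    have h3 : j < p := (mem_S.mp hp).2.2
    have h4 : f p hp % p = f p hp := Nat.mod_eq_of_lt (h2.trans h3)
    simp only [dif_pos hp] at h1
    exact ⟨Eq.trans h1 h4, h2⟩
  refine Finset.card_le_card_of_injOn g ?_ ?_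
  · intro f hf
    have hf' : f ∈ (S j Y).pi fun _ => Finset.range j := hf
    rw [Finset.mem_coe, Finset.mem_filter, Finset.mem_range]
    refine ⟨Nat.chineseRemainderOfFinset_lt_prod _ _ hne hcop, fun p hp => ?_⟩
    obtain ⟨h1, h2⟩ := hg f hf' p hp
    rw [h1]
    exact h2
  · intro f hf f' hf' he
    funext p hp
    rw [← (hg f hf p hp).1, ← (hg f' hf' p hp).1, he]

/-- The shift: a multiple `d` of `T` (itself a multiple of `j!`) which is small and close to `0` modulo all
primes up to `Y`. -/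
lemma exists_shift (j Y T : ℕ) (hj : 1 ≤ j) (hT0 : 0 < T) (hT : j.factorial ∣ T)
    (hR : 2 * T ≤ j ^ (S j Y).card) :
    ∃ d : ℕ, T ≤ d ∧
      (∀ p : ℕ, p.Prime → p ≤ Y → ∃ i ∈ Finset.Icc 1 (2 * j - 1), p ∣ (d - j) + i) ∧
      d * j ^ (S j Y).card ≤ 4 * T * ∏ p ∈ S j Y, p := by
  classical
  set M := ∏ p ∈ S j Y, p with hM
  set R := j ^ (S j Y).card with hRdef
  set A := (Finset.range M).filter (fun r => ∀ p ∈ S j Y, r % p < j) with hA
  have hcard : R ≤ A.card := card_res j Y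
  have hB : 0 < R / (2 * T) := Nat.div_pos hR (by omega)
  set B := R / (2 * T) with hBdef
  have hBR : B * (2 * T) ≤ R := Nat.div_mul_le_self _ _
  have hRB : R < (B + 1) * (2 * T) := by
    rw [hBdef, mul_comm]
    exact Nat.lt_mul_div_succ R (by omega)
  have hmaps : ∀ r ∈ A, (r / (M / B + 1), r % T) ∈ (Finset.range B) ×ˢ (Finset.range T) := by
    intro r hr
    rw [hA, Finset.mem_filter, Finset.mem_range] at hr
    rw [Finset.mem_product, Finset.mem_range, Finset.mem_range]
    refine ⟨?_, Nat.mod_lt _ hT0⟩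
    rw [Nat.div_lt_iff_lt_mul (Nat.succ_pos _)]
    have h1 : M < B * (M / B + 1) := Nat.lt_mul_div_succ M hB
    exact hr.1.trans h1
  have hlt : ((Finset.range B) ×ˢ (Finset.range T)).card < A.card := by
    rw [Finset.card_product, Finset.card_range, Finset.card_range]
    have h1 : 0 < B * T := Nat.mul_pos hB hT0
    have h2 : B * (2 * T) = 2 * (B * T) := by ring
    omega
  obtain ⟨r, hr, r', hr', hne, he⟩ := Finset.exists_ne_map_eq_of_card_lt_of_maps_to hlt hmaps
  have key : ∀ r ∈ A, ∀ r' ∈ A, r < r' → r / (M / B + 1) = r' / (M / B + 1) → r % T = r' % T →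
      ∃ d : ℕ, T ≤ d ∧
      (∀ p : ℕ, p.Prime → p ≤ Y → ∃ i ∈ Finset.Icc 1 (2 * j - 1), p ∣ (d - j) + i) ∧
      d * R ≤ 4 * T * M := by
    intro r hr r' hr' hlt h1 h2
    have hTd : T ∣ r' - r := (Nat.modEq_iff_dvd' hlt.le).mp h2
    have hd0 : 0 < r' - r := by omega
    have hTle : T ≤ r' - r := Nat.le_of_dvd hd0 hTd
    have hjT : j ≤ T := (Nat.self_le_factorial j).trans (Nat.le_of_dvd hT0 hT)
    refine ⟨r' - r, hTle, ?_, ?_⟩
    · intro p hp hpY
      rcases le_or_gt p j with hpj | hpj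
      · refine ⟨j, Finset.mem_Icc.mpr ⟨hj, by omega⟩, ?_⟩
        rw [Nat.sub_add_cancel (hjT.trans hTle)]
        exact ((Nat.dvd_factorial hp.pos hpj).trans hT).trans hTd
      · have hpS : p ∈ S j Y := mem_S.mpr ⟨hp, hpY, hpj⟩
        rw [hA, Finset.mem_filter] at hr hr'
        have h3 := hr.2 p hpS
        have h4 := hr'.2 p hpS
        refine ⟨j + r % p - r' % p, Finset.mem_Icc.mpr ⟨by omega, by omega⟩, ?_⟩
        have h5 : r' - r - j + (j + r % p - r' % p) = (r' - r' % p) - (r - r % p) := by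
          have h6 : r % p ≤ r := Nat.mod_le _ _
          have h7 : r' % p ≤ r' := Nat.mod_le _ _
          have h8 : j ≤ r' - r := hjT.trans hTle
          omega
        rw [h5]
        exact Nat.dvd_sub (Nat.dvd_sub_mod r') (Nat.dvd_sub_mod r)
    · have h3 : r' - r ≤ M / B := by
        have e1 := Nat.div_add_mod r (M / B + 1)
        have e2 := Nat.div_add_mod r' (M / B + 1)
        have e3 : r' % (M / B + 1) < M / B + 1 := Nat.mod_lt _ (Nat.succ_pos _)
        generalize M / B = W at *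
        rw [← h1] at e2
        omega
      have h4 : (r' - r) * B ≤ M := (Nat.mul_le_mul_right B h3).trans (Nat.div_mul_le_self _ _)
      have h5 : R ≤ 4 * T * B := by nlinarith
      calc (r' - r) * R ≤ (r' - r) * (4 * T * B) := Nat.mul_le_mul_left _ h5
        _ = 4 * T * ((r' - r) * B) := by ring
        _ ≤ 4 * T * M := Nat.mul_le_mul_left _ h4
  have he1 : r / (M / B + 1) = r' / (M / B + 1) := (Prod.ext_iff.mp he).1
  have he2 : r % T = r' % T := (Prod.ext_iff.mp he).2
  rcases lt_or_gt_of_ne hne with h | h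
  · exact key r hr r' hr' h he1 he2
  · exact key r' hr' r hr h he1.symm he2.symm

lemma card_S (j Y : ℕ) : Nat.primeCounting Y ≤ (S j Y).card + j := by
  have h1 : (Nat.primesLE Y).card = Nat.primeCounting Y := by simp
  have h2 : (Nat.primesLE Y) ⊆ S j Y ∪ Finset.Icc 1 j := by
    intro p hp
    rw [Nat.mem_primesLE] at hp
    rw [Finset.mem_union, mem_S, Finset.mem_Icc]
    have := hp.2.pos
    rcases le_or_gt p j with h | h
    · right; omega
    · left; exact ⟨hp.2, hp.1, h⟩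
  have h3 := (Finset.card_le_card h2).trans (Finset.card_union_le _ _)
  rw [Nat.card_Icc, h1] at h3
  omega

lemma prod_S (j Y : ℕ) : ((∏ p ∈ S j Y, p : ℕ) : ℝ) ≤ Real.exp (Chebyshev.theta Y) := by
  have h := prod_primesLE (Y : ℝ)
  rw [Nat.floor_natCast] at h
  rw [← h]
  have h1 : ∏ p ∈ S j Y, p ≤ ∏ p ∈ Nat.primesLE Y, p := by
    refine Finset.prod_le_prod_of_subset_of_one_le' (Finset.filter_subset _ _) fun p hp _ => ?_
    exact (Nat.mem_primesLE.mp hp).2.one_lt.le
  exact_mod_cast h1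

/-- The finite form: with `T = 2 ^ a * j!` there is an `n` with `(a - 1) log 2 ≤ log n` and
`log n ≤ θ(Y) - π(Y) log j + a log 2 + 2 j log j + log 4` such that all primes up to `Y` divide
`(n + 1) ... (n + 2 j - 1)`. -/
lemma finite_form (j Y a : ℕ) (hj : 2 ≤ j) (ha : 1 ≤ a)
    (hR : Real.log 2 + a * Real.log 2 + 2 * (j * Real.log j) ≤ Nat.primeCounting Y * Real.log j) :
    ∃ n : ℕ, 1 ≤ n ∧ (a - 1) * Real.log 2 ≤ Real.log n ∧
      Real.log n ≤ Chebyshev.theta Y - Nat.primeCounting Y * Real.log j + a * Real.log 2 +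
        2 * (j * Real.log j) + Real.log 4 ∧
      ∀ p : ℕ, p.Prime → p ≤ Y → ∃ i ∈ Finset.Icc 1 (2 * j - 1), p ∣ n + i := by
  have hj0 : (0:ℝ) < j := by exact_mod_cast (by omega : 0 < j)
  have hlj : 0 < Real.log j := Real.log_pos (by exact_mod_cast (by omega : 1 < j))
  have hf0 : 0 < j.factorial := Nat.factorial_pos j
  have hff : Real.log j.factorial ≤ j * Real.log j := by
    have h1 : (j.factorial : ℝ) ≤ (j : ℝ) ^ j := by exact_mod_cast Nat.factorial_le_pow j
    have h2 := Real.log_le_log (by exact_mod_cast hf0) h1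
    rwa [Real.log_pow] at h2
  have h2pos : (0:ℝ) < 2 ^ a := by positivity
  have hcS : (Nat.primeCounting Y : ℝ) ≤ (S j Y).card + j := by exact_mod_cast card_S j Y
  have hcS' : (Nat.primeCounting Y : ℝ) * Real.log j ≤ ((S j Y).card + j) * Real.log j :=
    mul_le_mul_of_nonneg_right hcS hlj.le
  have hT0 : 0 < 2 ^ a * j.factorial := Nat.mul_pos (by positivity) hf0
  have hlogT : Real.log ((2 ^ a * j.factorial : ℕ) : ℝ) = a * Real.log 2 + Real.log j.factorial := by
    push_cast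
    rw [Real.log_mul h2pos.ne' (by exact_mod_cast hf0.ne'), Real.log_pow]
  have hR' : 2 * (2 ^ a * j.factorial) ≤ j ^ (S j Y).card := by
    have h1 : ((2 * (2 ^ a * j.factorial) : ℕ) : ℝ) ≤ ((j ^ (S j Y).card : ℕ) : ℝ) := by
      rw [← Real.log_le_log_iff (by exact_mod_cast (by omega : 0 < 2 * (2 ^ a * j.factorial)))
        (by positivity)]
      have e1 : Real.log ((2 * (2 ^ a * j.factorial) : ℕ) : ℝ) =
          Real.log 2 + (a * Real.log 2 + Real.log j.factorial) := by
        rw [← hlogT]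
        push_cast
        rw [Real.log_mul (by norm_num) (by positivity)]
      have e2 : Real.log ((j ^ (S j Y).card : ℕ) : ℝ) = (S j Y).card * Real.log j := by
        push_cast
        rw [Real.log_pow]
      rw [e1, e2]
      nlinarith
    exact_mod_cast h1
  obtain ⟨d, hTd, hdiv, hdle⟩ := exists_shift j Y (2 ^ a * j.factorial) (by omega) hT0
    (Dvd.intro_left _ rfl) hR'
  have hjf : j ≤ j.factorial := Nat.self_le_factorial j
  have h2a : 2 ≤ 2 ^ a := by
    calc 2 = 2 ^ 1 := rfl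
      _ ≤ 2 ^ a := Nat.pow_le_pow_right (by norm_num) ha
  -- `n = d - j ≥ 2 ^ (a - 1)`
  have hn1 : 2 ^ (a - 1) + j ≤ d := by
    have e1 : 2 ^ a = 2 * 2 ^ (a - 1) := by
      rw [← pow_succ']
      congr 1
      omega
    have e2 : 0 < 2 ^ (a - 1) := by positivity
    have e3 : 2 ^ (a - 1) + j ≤ 2 ^ a * j.factorial := by
      rw [e1]
      nlinarith
    exact e3.trans hTd
  have e2 : 0 < 2 ^ (a - 1) := by positivity
  refine ⟨d - j, by omega, ?_, ?_, hdiv⟩
  · have h1 : ((2 ^ (a - 1) : ℕ) : ℝ) ≤ ((d - j : ℕ) : ℝ) := by exact_mod_cast (by omega)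
    have h2 := Real.log_le_log (by positivity) h1
    push_cast at h2
    rw [Real.log_pow] at h2
    have h3 : ((a - 1 : ℕ) : ℝ) = (a : ℝ) - 1 := by
      rw [Nat.cast_sub ha, Nat.cast_one]
    rw [h3] at h2
    exact h2
  · have hd0 : (0:ℝ) < d := by exact_mod_cast (by omega : 0 < d)
    have h1 : Real.log ((d - j : ℕ) : ℝ) ≤ Real.log d := by
      refine Real.log_le_log (by exact_mod_cast (by omega : 0 < d - j)) ?_
      exact_mod_cast (by omega : d - j ≤ d)
    have h2 : (d:ℝ) * (j:ℝ) ^ (S j Y).card ≤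
        4 * ((2 ^ a * j.factorial : ℕ) : ℝ) * Real.exp (Chebyshev.theta Y) := by
      calc (d:ℝ) * (j:ℝ) ^ (S j Y).card ≤
            4 * ((2 ^ a * j.factorial : ℕ) : ℝ) * ((∏ p ∈ S j Y, p : ℕ) : ℝ) := by
            exact_mod_cast hdle
        _ ≤ _ := mul_le_mul_of_nonneg_left (prod_S j Y) (by positivity)
    have hTr : (0:ℝ) < ((2 ^ a * j.factorial : ℕ) : ℝ) := by exact_mod_cast hT0
    have h3 := Real.log_le_log (by positivity) h2
    rw [Real.log_mul hd0.ne' (by positivity), Real.log_pow,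
      Real.log_mul (by positivity) (Real.exp_pos _).ne', Real.log_exp,
      Real.log_mul (by norm_num) hTr.ne', hlogT] at h3
    nlinarith

/-- The asymptotic facts. -/
lemma facts (α δ : ℝ) (hα : 0 < α) (hα1 : α < 1) (hδ : 0 < δ) (hδα : δ < α) :
    ∀ᶠ Y : ℕ in atTop,
      Chebyshev.theta Y ≤ (1 + δ) * Y ∧
      (1 - δ) * (Y / Real.log Y) ≤ Nat.primeCounting Y ∧
      (Y : ℝ) ^ (α - δ) + 2 ≤ (δ * Y) ^ α / 2 ∧
      (Y : ℝ) ^ α * Real.log Y ≤ δ * Y ∧ 1 ≤ Real.log Y ∧ 2 ≤ (Y : ℝ) ^ (α - δ) := by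
  have hnat : Tendsto (fun Y : ℕ => (Y : ℝ)) atTop atTop := tendsto_natCast_atTop_atTop
  have h1 := hnat.eventually (theta_pnt hδ)
  have h2 := hnat.eventually (pi_pnt hδ)
  have h3 : ∀ᶠ y : ℝ in atTop, y ^ (α - δ) + 2 ≤ (δ * y) ^ α / 2 := by
    have e1 : Tendsto (fun y : ℝ => y ^ δ) atTop atTop := tendsto_rpow_atTop hδ
    have e2 : Tendsto (fun y : ℝ => y ^ (α - δ)) atTop atTop := tendsto_rpow_atTop (by linarith)
    filter_upwards [e1.eventually_ge_atTop (4 / δ ^ α), e2.eventually_ge_atTop 2,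
      eventually_gt_atTop 0] with y hy1 hy2 hy0
    have hda : 0 < δ ^ α := Real.rpow_pos_of_pos hδ α
    rw [Real.mul_rpow hδ.le hy0.le]
    have e3 : y ^ α = y ^ (α - δ) * y ^ δ := by
      rw [← Real.rpow_add hy0]; congr 1; ring
    rw [e3]
    rw [div_le_iff₀ hda] at hy1
    have hy3 : 0 < y ^ (α - δ) := Real.rpow_pos_of_pos hy0 _
    nlinarith
  have h4 : ∀ᶠ y : ℝ in atTop, y ^ α * Real.log y ≤ δ * y := by
    have e1 := (isLittleO_log_rpow_atTop (show 0 < 1 - α by linarith)).def hδ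
    filter_upwards [e1, eventually_ge_atTop 1] with y hy hy1
    have hy0 : 0 < y := by linarith
    rw [Real.norm_of_nonneg (Real.log_nonneg hy1),
      Real.norm_of_nonneg (Real.rpow_nonneg hy0.le _)] at hy
    calc y ^ α * Real.log y ≤ y ^ α * (δ * y ^ (1 - α)) :=
          mul_le_mul_of_nonneg_left hy (Real.rpow_nonneg hy0.le _)
      _ = δ * (y ^ α * y ^ (1 - α)) := by ring
      _ = δ * y := by
          rw [← Real.rpow_add hy0]
          have : α + (1 - α) = 1 := by ring
          rw [this, Real.rpow_one]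
  have h5 : ∀ᶠ y : ℝ in atTop, 1 ≤ Real.log y := Real.tendsto_log_atTop.eventually_ge_atTop 1
  have h6 : ∀ᶠ y : ℝ in atTop, 2 ≤ y ^ (α - δ) :=
    (tendsto_rpow_atTop (show 0 < α - δ by linarith)).eventually_ge_atTop 2
  filter_upwards [h1, h2, hnat.eventually h3, hnat.eventually h4, hnat.eventually h5,
    hnat.eventually h6] with Y k1 k2 k3 k4 k5 k6
  refine ⟨?_, ?_, k3, k4, k5, k6⟩
  · have e1 := (abs_le.mp k1).2
    have e2 : (Y:ℝ) / Real.log Y ≤ Y := div_le_self (Nat.cast_nonneg _) k5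
    nlinarith
  · have e1 := (abs_le.mp k2).1
    rw [Nat.floor_natCast] at e1
    linarith

theorem main (α ε : ℝ) (hα : 0 < α) (hα1 : α < 1) (hε : 0 < ε) (N : ℕ) :
    ∃ n : ℕ, N ≤ n ∧ ∀ k : ℕ, ⌊Real.log n ^ α⌋₊ ≤ k →
      (1 / (1 - α) - ε) * Real.log n ≤ (q n k : ℝ) := by
  -- the constant
  obtain ⟨δ, hδ, hδ1, hδ2⟩ : ∃ δ : ℝ, 0 < δ ∧ 9 * δ ≤ α ∧ 12 * δ ≤ ε * (1 - α) ^ 2 := by
    have h1 : 0 < ε * (1 - α) ^ 2 := by
      have : 0 < 1 - α := by linarith
      positivity
    refine ⟨min (α / 9) (ε * (1 - α) ^ 2 / 12), lt_min (by positivity) (by positivity), ?_, ?_⟩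
    · have := min_le_left (α / 9) (ε * (1 - α) ^ 2 / 12)
      linarith
    · have := min_le_right (α / 9) (ε * (1 - α) ^ 2 / 12)
      linarith
  have hnat : Tendsto (fun Y : ℕ => (Y : ℝ)) atTop atTop := tendsto_natCast_atTop_atTop
  obtain ⟨Y, ⟨f1, f2, f3, f4, f5, f6⟩, hY1, hY2⟩ := ((facts α δ hα hα1 hδ (by linarith)).and ((hnat.eventually_ge_atTop ((10 + Real.log N) / δ)).and
      (hnat.eventually_ge_atTop (10 / δ)))).exists
  rw [div_le_iff₀ hδ] at hY1 hY2
  have hlog2 := Real.log_two_gt_d9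
  have hlog2' := Real.log_two_lt_d9
  have hlog4 : Real.log 4 = 2 * Real.log 2 := by
    rw [show (4:ℝ) = 2 ^ 2 by norm_num, Real.log_pow]; norm_num
  have hlN : 0 ≤ Real.log N := Real.log_natCast_nonneg N
  have hYpos : (0:ℝ) < Y := by nlinarith
  -- `j`
  obtain ⟨j, hj1, hj2⟩ : ∃ j : ℕ, (Y : ℝ) ^ (α - δ) ≤ j ∧ (2 * j : ℝ) ≤ (δ * Y) ^ α := by
    refine ⟨⌊(δ * Y) ^ α / 2⌋₊, ?_, ?_⟩
    · have := Nat.lt_floor_add_one ((δ * Y) ^ α / 2)
      linarith
    · have := Nat.floor_le (show 0 ≤ (δ * Y) ^ α / 2 by positivity)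
      linarith
  have hj2' : 2 ≤ j := by
    have : (2:ℝ) ≤ j := f6.trans hj1
    exact_mod_cast this
  have hj0 : (0:ℝ) < j := by exact_mod_cast (by omega : 0 < j)
  have hlj : 0 < Real.log j := Real.log_pos (by exact_mod_cast (by omega : 1 < j))
  have hlogj : (α - δ) * Real.log Y ≤ Real.log j := by
    have h1 := Real.log_le_log (Real.rpow_pos_of_pos hYpos _) hj1
    rwa [Real.log_rpow hYpos] at h1
  have hjY : (j:ℝ) ≤ Y ^ α := by
    have h1 : (δ * Y) ^ α ≤ (Y:ℝ) ^ α :=
      Real.rpow_le_rpow (by positivity) (by nlinarith) hα.le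
    have h2 : 0 ≤ (j:ℝ) := hj0.le
    linarith
  have hlogjY : Real.log j ≤ Real.log Y := by
    have h1 := Real.log_le_log hj0 hjY
    rw [Real.log_rpow hYpos] at h1
    nlinarith
  have hjlj : j * Real.log j ≤ δ * Y := by
    calc (j:ℝ) * Real.log j ≤ Y ^ α * Real.log Y := by
          exact mul_le_mul hjY hlogjY hlj.le (Real.rpow_nonneg hYpos.le _)
      _ ≤ δ * Y := f4
  have hpj : (α - 2 * δ) * Y ≤ Nat.primeCounting Y * Real.log j := by
    have h1 : (1 - δ) * (Y / Real.log Y) * ((α - δ) * Real.log Y) ≤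
        Nat.primeCounting Y * Real.log j := by
      refine mul_le_mul f2 hlogj ?_ (Nat.cast_nonneg _)
      exact mul_nonneg (by linarith) (by linarith)
    have h2 : (1 - δ) * (Y / Real.log Y) * ((α - δ) * Real.log Y) = (1 - δ) * (α - δ) * Y := by
      have : Real.log Y ≠ 0 := by linarith
      field_simp
    rw [h2] at h1
    have h3 : α - 2 * δ ≤ (1 - δ) * (α - δ) := by nlinarith
    nlinarith
  -- `a`
  obtain ⟨a, ha1, ha2⟩ : ∃ a : ℕ, δ * Y + Real.log 2 ≤ a * Real.log 2 ∧
      a * Real.log 2 ≤ δ * Y + 2 * Real.log 2 := by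
    refine ⟨⌈δ * Y / Real.log 2⌉₊ + 1, ?_, ?_⟩
    · have h1 := Nat.le_ceil (δ * Y / Real.log 2)
      rw [div_le_iff₀ (by linarith)] at h1
      push_cast
      linarith
    · have h1 := Nat.ceil_lt_add_one (show 0 ≤ δ * Y / Real.log 2 by positivity)
      have h2 : (⌈δ * Y / Real.log 2⌉₊ : ℝ) * Real.log 2 ≤
          (δ * Y / Real.log 2 + 1) * Real.log 2 :=
        mul_le_mul_of_nonneg_right h1.le (by linarith)
      have h3 : (δ * Y / Real.log 2 + 1) * Real.log 2 = δ * Y + Real.log 2 := by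
        have : Real.log 2 ≠ 0 := by linarith
        field_simp
      push_cast
      linarith
  have ha : 1 ≤ a := by
    by_contra h
    have : a = 0 := by omega
    subst this
    push_cast at ha1
    nlinarith
  obtain ⟨n, hn1, hn2, hn3, hn4⟩ := finite_form j Y a hj2' ha (by nlinarith)
  have hn0 : (0:ℝ) < n := by exact_mod_cast (by omega : 0 < n)
  have hlow : δ * Y ≤ Real.log n := by linarith
  refine ⟨n, ?_, fun k hk => ?_⟩
  · by_contra h
    push Not at h
    have h1 : Real.log n ≤ Real.log N := Real.log_le_log hn0 (by exact_mod_cast h.le)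
    linarith
  · have hk' : 2 * j - 1 ≤ k := by
      refine le_trans ?_ hk
      refine (by omega : 2 * j - 1 ≤ 2 * j).trans (Nat.le_floor ?_)
      push_cast
      exact hj2.trans (Real.rpow_le_rpow (by positivity) hlow hα.le)
    have hq : Y < q n k := by
      refine lt_q_of_forall fun p hp hpY => ?_
      obtain ⟨i, hi, hpi⟩ := hn4 p hp hpY
      rw [Finset.mem_Icc] at hi
      exact ⟨i, Finset.mem_Icc.mpr ⟨hi.1, by omega⟩, hpi⟩
    have hqr : (Y:ℝ) ≤ q n k := by exact_mod_cast hq.le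
    refine le_trans ?_ hqr
    have hup : Real.log n ≤ (1 - α + 12 * δ) * Y := by
      have g1 : (1 + δ) * (Y:ℝ) = Y + δ * Y := by ring
      have g2 : (α - 2 * δ) * (Y:ℝ) = α * Y - 2 * (δ * Y) := by ring
      have g3 : (1 - α + 12 * δ) * (Y:ℝ) = Y - α * Y + 12 * (δ * Y) := by ring
      have g4 : (Y:ℝ) * δ = δ * Y := by ring
      rw [g1] at f1
      rw [g2] at hpj
      rw [g3]
      rw [g4] at hY2
      linarith
    have h1a : 0 < 1 - α := by linarith
    rcases le_or_gt (1 / (1 - α) - ε) 0 with h | h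
    · have h1 : 0 ≤ Real.log n := by nlinarith
      nlinarith
    · calc (1 / (1 - α) - ε) * Real.log n ≤ (1 / (1 - α) - ε) * ((1 - α + 12 * δ) * Y) :=
            mul_le_mul_of_nonneg_left hup h.le
        _ = ((1 / (1 - α) - ε) * (1 - α + 12 * δ)) * Y := by ring
        _ ≤ 1 * Y := by
            refine mul_le_mul_of_nonneg_right ?_ hYpos.le
            have e1 : (1 / (1 - α) - ε) * (1 - α + 12 * δ) =
                1 - ε * (1 - α) + 12 * δ / (1 - α) - 12 * δ * ε := by
              field_simp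
              ring
            rw [e1]
            have e2 : 12 * δ / (1 - α) ≤ ε * (1 - α) := by
              rw [div_le_iff₀ h1a]
              calc 12 * δ ≤ ε * (1 - α) ^ 2 := hδ2
                _ = ε * (1 - α) * (1 - α) := by ring
            have e3 : 0 < 12 * δ * ε := by positivity
            linarith
        _ = Y := one_mul _

end Pool.Agent.helper2.GK
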